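import Pool.Agent.helper60.DB.SpecF

set_option autoImplicit false

/-!
# Row bf:EP
-/

namespace Pool.Agent.helper60.DB

/-- Row bf:EP. -/
theorem EP : EP_stmt := by
  intro R k _ _ _ _ p m _ _ q _ hp5 hpm ε B η hpB hη hε hqε
  have hp : p.Prime := Fact.out
  have hBZ : B ≠ 0 := by
    rintro rfl
    exact hpB (dvd_zero _)
  have hBR : (B : R) ≠ 0 := by exact_mod_cast hBZ
  -- cancel `B`
  have h1 : ε ^ 4 = (B : R) ^ (2 * m) := by
    refine mul_left_cancel₀ hBR ?_
    rw [hε, hpm, pow_succ']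
  have h2 : (ε ^ 2 - (B : R) ^ m) * (ε ^ 2 + (B : R) ^ m) = 0 := by
    have e1 : (ε ^ 2 - (B : R) ^ m) * (ε ^ 2 + (B : R) ^ m) = ε ^ 4 - (B : R) ^ (2 * m) := by
      rw [mul_comm 2 m, pow_mul]; ring
    rw [e1, h1, sub_self]
  obtain ⟨δ, hδ, hεδ⟩ : ∃ δ : ℤ, (δ = 1 ∨ δ = -1) ∧ ε ^ 2 = (δ : R) * (B : R) ^ m := by
    rcases mul_eq_zero.1 h2 with h | h
    · exact ⟨1, Or.inl rfl, by rw [sub_eq_zero] at h; rw [h]; push_cast; ring⟩
    · refine ⟨-1, Or.inr rfl, ?_⟩
      rw [eq_neg_of_add_eq_zero_left h]; push_cast; ring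
  -- the Legendre symbol
  have hleg : ((legendreSym p B : ℤ) : k) = (B : k) ^ m := by
    have h3 := legendreSym.eq_pow p B
    have h4 : p / 2 = m := by omega
    rw [h4] at h3
    have h5 := congrArg (ZMod.castHom (dvd_refl p) k) h3
    rw [map_pow, map_intCast, map_intCast] at h5
    exact h5
  have hlegv : legendreSym p B = 1 ∨ legendreSym p B = -1 := by
    refine legendreSym.eq_one_or_neg_one p ?_
    intro h0
    exact hpB ((ZMod.intCast_zmod_eq_zero_iff_dvd B p).1 h0)
  have hηv : η = 1 ∨ η = -1 := by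
    have : (η - 1) * (η + 1) = 0 := by linear_combination hη
    rcases mul_eq_zero.1 this with h | h
    · left; omega
    · right; omega
  have hmod : ((η : ℤ) : k) = ((δ * legendreSym p B : ℤ) : k) := by
    rw [← hqε, ← map_pow, hεδ, map_mul, map_pow, map_intCast, map_intCast]
    push_cast
    rw [hleg]
  have h2k : (2 : k) ≠ 0 := by
    intro h0
    have h3 : ((2 : ℕ) : k) = 0 := by exact_mod_cast h0
    rw [CharP.cast_eq_zero_iff k p] at h3
    have := Nat.le_of_dvd (by norm_num) h3
    omega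
  have hne : ((1 : ℤ) : k) ≠ ((-1 : ℤ) : k) := by
    intro h0
    apply h2k
    push_cast at h0
    linear_combination h0
  have hkey : η = δ * legendreSym p B := by
    rcases hδ with rfl | rfl <;> rcases hlegv with h | h <;> rcases hηv with rfl | rfl <;>
      rw [h] at hmod ⊢ <;> norm_num at hmod ⊢ <;>
      first
        | (exfalso; apply hne; push_cast; exact hmod)
        | (exfalso; apply hne; push_cast; exact hmod.symm)
  have hsq : (legendreSym p B : ℤ) * legendreSym p B = 1 := by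
    rcases hlegv with h | h <;> rw [h] <;> norm_num
  rw [hεδ]
  have h6 : (η : R) * ((legendreSym p B : ℤ) : R) = (δ : R) := by
    have h7 : η * legendreSym p B = δ := by
      rw [hkey, mul_assoc, hsq, mul_one]
    exact_mod_cast h7
  rw [h6]

end Pool.Agent.helper60.DB
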